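import Pool.Agent.Mg.Ff7db47a.Gd9ada2

namespace Pool.Agent.Results.MP_f7db47_al.DennisTrace

open Pool.Agent.MP_f7db47_al.Cv

theorem result (k : Type) [CommRing k] [IsReduced k] [IsAddTorsionFree k] (G : Type) [Group G]
    (m n : ℕ) (z : (Fin (n + 1) → GL (Fin m) (MonoidAlgebra k G)) →₀ ℤ)
    (hz : (groupHomology.inhomogeneousChains.d
      (Rep.trivial ℤ (GL (Fin m) (MonoidAlgebra k G)) ℤ) n).hom z = 0)
    (φ : (Fin (n + 2) → G) → ℤ) (hφ : HCocycle φ)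
    (hs : ∀ t, φ t ≠ 0 → ∀ H : Subgroup G, H.FG → ∀ h : H, (h : G) = (List.ofFn t).prod →
      Far h) :
    (z.sum fun u a => a • dennis φ u) = 0 :=
  dennis_loc z ((dI_eq n z).symm.trans hz) hφ hs

end Pool.Agent.Results.MP_f7db47_al.DennisTrace
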