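import Pool.Agent.Mg.Ff7db47k.K2

namespace Pool.Agent.Results.MP_f7db47_al.FarrellJonesK

open Pool.Agent.MP_f7db47_al

universe v

theorem result (R : Type v) [Ring R] (A : Type) [CommRing A] (k : ℕ) (Γ : Type) [Group Γ]
    (p : Γ →* GL (Fin k) A) (U : Subgroup Γ) (hU : U ≤ p.ker) (hi : U.relIndex p.ker ≠ 0)
    (hs : Group.IsSolvable U) (G : Type) [Group G] (f : G →* Γ) (V : Type) [MulAction G V]
    (hV : ∀ (B : Subgroup Γ) (φ : B →* Multiplicative ℤ), Finite φ.ker →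
      ∃ v : V, ∀ g, f g ∈ B → g • v = v) (n : ℕ) : OB.KZero R G V n :=
  GR.kzero_fj (VD.fj_slin p U hU hi hs) f hV R n

end Pool.Agent.Results.MP_f7db47_al.FarrellJonesK
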