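import Pool.Agent.Mg.Ff7db47.G213fb9

namespace Pool.Agent.Results.MP_f7db47_al.LinearGroups

open Pool.Agent.MP_f7db47_al

universe v

theorem result (R : Type v) [Ring R] (hR : RegularRing R) (A : Type) [CommRing A] (n : ℕ)
    (G : Type) [Group G] (hG : ∀ g : G, IsOfFinOrder g → g = 1) (p : G →* GL (Fin n) A)
    (U : Subgroup G) (hU : U ≤ p.ker) (hi : U.relIndex p.ker ≠ 0) (hs : Group.IsSolvable U) :
    K1Onto R G :=
  k1Onto_of_G1 (qq_fj_tf hR (VC.fj_slin p U hU hi hs) hG).g1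

end Pool.Agent.Results.MP_f7db47_al.LinearGroups
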